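import Pool.Agent.Lib.MP_305fdd_al.F2.StmB

/-!
# MP_305fdd_al (`F_2`), section B, piece `bd`: `RD` and `NP` give `BD`
-/

set_option autoImplicit false

namespace Pool.Agent.F2

open MvPolynomial
open scoped commutatorElement

/-- the class map of the free group is onto -/
theorem p_bd_clF_surj (c : Multiplicative (ℤ × ℤ)) : ∃ w : Fr, clF w = c := by
  refine ⟨gx ^ (Multiplicative.toAdd c).1 * gy ^ (Multiplicative.toAdd c).2, ?_⟩
  have h1 : clF gx = Multiplicative.ofAdd ((1, 0) : ℤ × ℤ) := by simp [clF, gx]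
  have h2 : clF gy = Multiplicative.ofAdd ((0, 1) : ℤ × ℤ) := by simp [clF, gy]
  rw [map_mul, map_zpow, map_zpow, h1, h2, ← ofAdd_zsmul, ← ofAdd_zsmul, ← ofAdd_add]
  apply Multiplicative.toAdd.injective
  ext <;> simp

theorem p_bd (p : ℕ) [Fact p.Prime] (k : Type) [Field k] [CharP k p] [PerfectRing k p] (D : Type)
    [CommRing D] [Algebra k D] (res : D →ₐ[k] Lau k) (g : Fin 3 → D) (h1 : S_auniv)
    (h2 : S_resa) (h3 : S_tapc) : S_bd p k D res g := by
  intro hp2 Λ _ f cl T hE hR hN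
  have hpc : PC fun w : Fr => T (f w) :=
    ⟨by rw [map_one]; exact hR.pc.one, fun a b => by
      rw [map_mul, map_mul]; exact hR.pc.comm _ _, fun a b => by
      rw [map_mul, map_mul, map_inv]; exact hR.pc.rel _ _⟩
  obtain ⟨φ, hφ⟩ := h1.1 k D (fun w : Fr => T (f w)) hpc
  have hcl : ∀ w, cl (f w) = clF w := fun w => DFunLike.congr_fun hE.clf w
  have hres : res.comp φ = resA k := by
    refine AlgHom.ext_of_adjoin_eq_top (h1.2.1 k).1 ?_
    rintro _ ⟨w, rfl⟩
    rw [AlgHom.comp_apply, hφ, hR.res_T, h2.1 k w, hcl]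
  have hkap : φ (kap k) = T ⁅f gx, f gy⁆ - 2 := by
    have h4 := h1.2.2 k
    have h5 : kap k = TA k ⁅gx, gy⁆ - 2 := by rw [h4]; ring
    rw [h5, map_sub, hφ, map_commutatorElement, map_ofNat]
  obtain ⟨-, t1, t2, t3⟩ := h3 k
  have hcrd : (fun i => φ (X i)) = crd f T := by
    funext i
    fin_cases i
    · show φ (X 0) = T (f gx)
      rw [← t1, hφ]
    · show φ (X 1) = T (f gy)
      rw [← t2, hφ]
    · show φ (X 2) = T (f (gx * gy))
      rw [← t3, hφ]
  refine ⟨φ, hφ, ⟨hp2, hR.dom, hR.ft, fun a => ?_, fun d => ?_, ?_, ?_, ?_⟩⟩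
  · exact DFunLike.congr_fun hres a
  · have hrange : res.range ≤ (resA k).range := by
      have : (res.range : Subalgebra k (Lau k)) = Subalgebra.map res ⊤ :=
        (Algebra.map_top res).symm
      rw [this, ← hR.gen, AlgHom.map_adjoin, Algebra.adjoin_le_iff]
      rintro _ ⟨_, ⟨l, rfl⟩, rfl⟩
      obtain ⟨w, hw⟩ := p_bd_clF_surj (cl l)
      refine ⟨TA k w, ?_⟩
      show resA k (TA k w) = res (T l)
      rw [h2.1 k w, hR.res_T, hw]
    obtain ⟨a, ha⟩ := hrange ⟨d, rfl⟩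
    exact ⟨a, ha.symm⟩
  · rw [hkap]
    exact sub_ne_zero.2 hR.kne
  · obtain ⟨e, he, he'⟩ := hR.loc
    refine ⟨e, he, fun b hb => ?_⟩
    obtain ⟨c, hc⟩ := he' b hb
    exact ⟨c, by rw [hkap]; exact hc⟩
  · rw [hcrd]
    exact hN

end Pool.Agent.F2
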