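import Pool.Agent.Lib.MP_305fdd_al.F2.StmB

/-!
# MP_305fdd_al (F_2), section B, piece fpl: the field of rational functions
-/

set_option autoImplicit false

namespace Pool.Agent.F2

open MvPolynomial

section

variable {p : ℕ} {R S : Type} [CommRing R] [CommRing S]

private theorem p_fpl_map (F : R →+* S) (x : Fin 3 → R) (c : (Fin 3 → Fin p) → R) :
    F (pcomb x c) = pcomb (fun i => F (x i)) fun e => F (c e) := by
  unfold pcomb F2Ch.monY
  rw [map_sum]
  refine Finset.sum_congr rfl fun e _ => ?_
  rw [map_mul, map_pow, map_prod]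
  simp only [map_pow]

private theorem p_fpl_smul (x : Fin 3 → R) (a : R) (c : (Fin 3 → Fin p) → R) :
    pcomb x (fun e => a * c e) = a ^ p * pcomb x c := by
  unfold pcomb
  rw [Finset.mul_sum]
  refine Finset.sum_congr rfl fun e _ => ?_
  rw [mul_pow]
  ring

end

theorem p_fpl (h1 : S_pol) (h2 : S_car) : S_fpl := by
  intro p hp k _ _ _ L _ _ _
  obtain ⟨hP1, hP2, hP3⟩ := h1 p k
  haveI : CharP L p := charP_of_injective_algebraMap
    (R := Ak k) (IsFractionRing.injective (Ak k) L) p
  have hI : PInd p (fun i => algebraMap (Ak k) L (X i)) := by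
    intro c hc
    obtain ⟨b, hb⟩ := IsLocalization.exist_integer_multiples_of_finite
      (nonZeroDivisors (Ak k)) c
    choose d hd using hb
    have h3 : algebraMap (Ak k) L (pcomb X d) = 0 := by
      rw [p_fpl_map]
      have h4 : (fun e => algebraMap (Ak k) L (d e)) =
          fun e => algebraMap (Ak k) L (b : Ak k) * c e := by
        funext e
        rw [hd e, Algebra.smul_def]
      rw [h4, p_fpl_smul, hc, mul_zero]
    have h5 : pcomb X d = 0 := (IsFractionRing.injective (Ak k) L) (by rw [h3, map_zero])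
    have h6 : d = fun _ => 0 := by
      apply hP2
      rw [h5]
      unfold pcomb
      symm
      apply Finset.sum_eq_zero
      intro e _
      rw [zero_pow hp.out.ne_zero, zero_mul]
    intro e
    have h7 := hd e
    rw [h6, map_zero, Algebra.smul_def] at h7
    have h8 : algebraMap (Ak k) L (b : Ak k) ≠ 0 := by
      rw [Ne, IsFractionRing.to_map_eq_zero_iff]
      exact nonZeroDivisors.ne_zero b.2
    exact (mul_eq_zero.1 h7.symm).resolve_left h8
  have hrep : ∀ a : Ak k, algebraMap (Ak k) L a =
      pcomb (fun i => algebraMap (Ak k) L (X i))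
        fun e : Fin 3 → Fin p => algebraMap (Ak k) L (compk p k (toF e) a) := by
    intro a
    conv_lhs => rw [hP1 a]
    rw [p_fpl_map]
  refine ⟨⟨hI, fun f => ?_⟩, fun a => ?_⟩
  · obtain ⟨a, b, hb, rfl⟩ := IsFractionRing.div_surjective (A := Ak k) f
    have hb0 : algebraMap (Ak k) L b ≠ 0 := by
      rw [Ne, IsFractionRing.to_map_eq_zero_iff]
      exact nonZeroDivisors.ne_zero hb
    refine ⟨fun e => (algebraMap (Ak k) L b)⁻¹ *
      algebraMap (Ak k) L (compk p k (toF e) (a * b ^ (p - 1))), ?_⟩
    rw [p_fpl_smul, ← hrep, map_mul, map_pow, inv_pow]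
    have h9 : algebraMap (Ak k) L b ^ p = algebraMap (Ak k) L b * algebraMap (Ak k) L b ^ (p - 1) := by
      rw [← pow_succ', Nat.sub_add_cancel hp.out.one_le]
    rw [h9]
    have h10 : algebraMap (Ak k) L b ^ (p - 1) ≠ 0 := pow_ne_zero _ hb0
    field_simp
  · have h11 : psik p k a = compk p k (toF (top3 p)) a := rfl
    rw [hrep a, ((h2 p L _).1 hI).2 _ |>.2, h11]

end Pool.Agent.F2
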