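import Pool.Agent.Lib.MP_305fdd_al.F2.StmB

set_option autoImplicit false

namespace Pool.Agent.F2

open MvPolynomial

theorem p_h_charP (p : ℕ) [Fact p.Prime] (k : Type) [Field k] [CharP k p]
    (D : Type) [CommRing D] [Algebra k D] (K : Type) [Field K] [Algebra D K] : CharP K p :=
  charP_of_injective_ringHom ((algebraMap D K).comp (algebraMap k D)).injective p

theorem p_h (p : ℕ) [Fact p.Prime] (k : Type) [Field k] [CharP k p] [PerfectRing k p] (D : Type)
    [CommRing D] [Algebra k D] (φ : Ak k →ₐ[k] D) (res : D →ₐ[k] Lau k) (g : Fin 3 → D) (K : Type)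
    [Field K] [Algebra D K] (h1 : S_om p k D φ res g K) (h2 : S_nil p k D φ res g K)
    (h3 : S_mo p k D φ res g K) (h4 : S_rc p k D φ res g K) (h5 : S_car) (h6 : S_th)
    (h7 : S_pb p k D φ res g K) : S_h p k D φ res g K := by
  intro hBD hfr O ρ hOR L _ _ _ _ _ hLK
  have : CharP K p := p_h_charP p k D K
  have hpb := (h7 hBD hfr L hLK).1
  obtain ⟨-, hadd, hmul⟩ := (h5 p K (xK φ K)).2 hpb
  obtain ⟨hD, hOadd, hOmod, hOC⟩ := h1 hBD hfr L hLK
  obtain ⟨hCO, hrc⟩ := h4 hBD hfr O ρ hOR hpb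
  obtain ⟨e, he1, he2⟩ := hBD.loc
  have hpp : 0 < p := (Fact.out : p.Prime).pos
  obtain ⟨C, hC⟩ : ∃ C : K →+ K, ∀ f, C f = Car p (xK φ K) f :=
    ⟨AddMonoidHom.mk' (Car p (xK φ K)) hadd, fun _ => rfl⟩
  obtain ⟨κ, hκ⟩ : ∃ κ : K, κ = algebraMap D K (φ (kap _)) := ⟨_, rfl⟩
  have hκ0 : κ ≠ 0 := by
    rw [hκ]
    intro h0
    have hinj : Function.Injective (algebraMap D K) := IsFractionRing.injective D K
    exact hBD.kne (hinj (by rw [h0, map_zero]))
  obtain ⟨E, hE⟩ : ∃ E : K, E = algebraMap D K e := ⟨_, rfl⟩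
  obtain ⟨x, hx⟩ : ∃ x : K, x = E / κ := ⟨_, rfl⟩
  have hκx : κ * x = E := by rw [hx]; field_simp
  -- x lies in Mo
  have hxM : ∀ i : D, res i = 0 → x * algebraMap D K i ∈ Om k D K L := by
    intro i hi
    obtain ⟨c, hc⟩ := he2 i hi
    have h8 : x * algebraMap D K i = algebraMap D K c := by
      have h9 : κ * (x * algebraMap D K i) = κ * algebraMap D K c := by
        rw [← mul_assoc, hκx, hE, hκ, ← map_mul, ← map_mul, hc]
      exact mul_left_cancel₀ hκ0 h9
    rw [h8]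
    exact hD c
  have hCM : ∀ f : K, (∀ i : D, res i = 0 → f * algebraMap D K i ∈ Om k D K L) →
      ∀ i : D, res i = 0 → C f * algebraMap D K i ∈ Om k D K L := by
    intro f hf i hi
    have h8 : C f * algebraMap D K i = Car p (xK φ K) (f * algebraMap D K (i ^ p)) := by
      rw [hC, map_pow, mul_comm f, hmul, mul_comm]
    rw [h8]
    exact hOC _ (hf _ (by rw [map_pow, hi, zero_pow hpp.ne']))
  -- the residue of κ C x
  obtain ⟨w', hw1, hw2⟩ := hrc e 1 (map_one ρ)
  have hth : th p k (res e) = 1 := by rw [he1]; exact (h6 p k).2.1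
  rw [hth, map_one] at hw2
  have hκC : κ * C x = (w' : K) := by
    rw [hw1, hC, ← hmul, ← hκ]
    congr 1
    have h8 : κ ^ p = κ ^ (p - 1) * κ := by
      rw [← pow_succ, Nat.sub_add_cancel hpp]
    rw [h8, mul_assoc, hκx, hE]
    simp only [OneMemClass.coe_one, mul_one]
    ring
  obtain ⟨u, hu⟩ : ∃ u : K, u = C x - x := ⟨_, rfl⟩
  have hEO : ρ (w' - ⟨algebraMap D K e, hOR.dmem e⟩) = 0 := by
    rw [map_sub, hw2, hOR.ρ_D, he1, map_one, sub_self]
  obtain ⟨y, hyO, hy⟩ := (hOR.ker _).mp hEO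
  have huy : u = y := by
    have h8 : κ * u = κ * y := by
      rw [hu, mul_sub, hκC, hκx, hE, hκ]
      exact hy
    exact mul_left_cancel₀ hκ0 h8
  have huO : u ∈ O := huy ▸ hyO
  have huM : ∀ i : D, res i = 0 → u * algebraMap D K i ∈ Om k D K L := by
    intro i hi
    rw [hu, sub_mul, sub_eq_add_neg]
    exact (hOadd _ _ (hCM x hxM i hi) ((hOadd _ _ (hxM i hi) (hxM i hi)).2)).1
  have huOm : u ∈ Om k D K L := h3 hBD hfr O ρ hOR L hLK u huO huM
  obtain ⟨N, hN⟩ := h2 hBD hfr L hLK u huOm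
  have hCN : (⇑C)^[N] u = 0 := by
    have h8 : (⇑C : K → K) = Car p (xK φ K) := funext hC
    rw [h8]; exact hN N le_rfl
  have hjO : ∀ j : ℕ, (⇑C)^[j] u ∈ O := by
    intro j
    induction j with
    | zero => exact huO
    | succ j ih => rw [Function.iterate_succ_apply', hC]; exact hCO _ ih
  have hjOm : ∀ j : ℕ, (⇑C)^[j] u ∈ Om k D K L := by
    intro j
    induction j with
    | zero => exact huOm
    | succ j ih => rw [Function.iterate_succ_apply', hC]; exact hOC _ ih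
  obtain ⟨s, hs⟩ : ∃ s : K, s = ∑ j ∈ Finset.range N, (⇑C)^[j] u := ⟨_, rfl⟩
  have hsO : s ∈ O := by rw [hs]; exact sum_mem fun j _ => hjO j
  have hsOm : s ∈ Om k D K L := by
    rw [hs]
    have h8 : ∀ M : ℕ, ∑ j ∈ Finset.range M, (⇑C)^[j] u ∈ Om k D K L := by
      intro M
      induction M with
      | zero =>
        rw [Finset.sum_range_zero]
        have := hD 0
        rwa [map_zero] at this
      | succ M ih => rw [Finset.sum_range_succ]; exact (hOadd _ _ ih (hjOm M)).1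
    exact h8 N
  refine ⟨x + s, ?_, ?_, ?_⟩
  · rw [← hC, map_add]
    have h8 : C s = s - u := by
      rw [hs, map_sum]
      have h9 : ∀ j ∈ Finset.range N, C ((⇑C)^[j] u) = (⇑C)^[j + 1] u := fun j _ =>
        (Function.iterate_succ_apply' _ _ _).symm
      rw [Finset.sum_congr rfl h9]
      have h10 := Finset.sum_range_succ' (fun j => (⇑C)^[j] u) N
      have h11 := Finset.sum_range_succ (fun j => (⇑C)^[j] u) N
      rw [hCN, add_zero] at h11
      rw [h11] at h10
      rw [h10]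
      simp only [Function.iterate_zero, id_eq, add_sub_cancel_right]
    rw [h8, hu]
    ring
  · refine ⟨⟨algebraMap D K e, hOR.dmem e⟩ +
      ⟨algebraMap D K (φ (kap _)), hOR.dmem _⟩ * ⟨s, hsO⟩, ?_, ?_⟩
    · rw [map_add, hOR.ρ_D, he1, map_one,
        (hOR.ker (⟨algebraMap D K (φ (kap _)), hOR.dmem _⟩ * ⟨s, hsO⟩)).mpr ⟨s, hsO, rfl⟩, add_zero]
    · have h8 : algebraMap D K (φ (kap _)) * (x + s) =
          algebraMap D K e + algebraMap D K (φ (kap _)) * s := by
        rw [← hκ, mul_add, hκx, hE]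
      rw [h8]
      rfl
  · intro i hi
    rw [add_mul]
    refine (hOadd _ _ (hxM i hi) ?_).1
    rw [mul_comm]
    exact hOmod i s hsOm

end Pool.Agent.F2
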