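import Pool.Agent.Lib.MP_305fdd_al.F2.StmB

/-!
# MP_305fdd_al, section B: [FB lk]
-/

set_option autoImplicit false

namespace Pool.Agent.F2

open MvPolynomial

/-- the total degree of the components -/
private theorem p_lk_deg (p : ℕ) [Fact p.Prime] (k : Type) [Field k] [CharP k p] [PerfectRing k p]
    (α : Fin 3 →₀ ℕ) (a : Ak k) : p * (compk p k α a).totalDegree ≤ a.totalDegree := by
  have h : (compk p k α a).totalDegree ≤ a.totalDegree / p := by
    refine Finset.sup_le fun w hw => ?_
    rw [Nat.le_div_iff_mul_le (Fact.out : p.Prime).pos]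
    have h1 : coeff (p • w + α) a ≠ 0 := by
      intro h0
      rw [MvPolynomial.mem_support_iff, coeff_compk, h0, map_zero] at hw
      exact hw rfl
    have h2 := MvPolynomial.le_totalDegree (MvPolynomial.mem_support_iff.2 h1)
    refine le_trans ?_ h2
    rw [Finsupp.sum_fintype _ _ (by intro; rfl), Finsupp.sum_fintype _ _ (by intro; rfl), Finset.sum_mul]
    refine Finset.sum_le_sum fun i _ => ?_
    simp only [Finsupp.coe_add, Finsupp.coe_smul, Pi.add_apply, Pi.smul_apply, smul_eq_mul]
    rw [mul_comm]
    exact Nat.le_add_right _ _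
  calc p * (compk p k α a).totalDegree ≤ p * (a.totalDegree / p) := Nat.mul_le_mul_left p h
    _ ≤ a.totalDegree := Nat.mul_div_le _ _

/-- [FB lk] -/
theorem p_lk (p : ℕ) [Fact p.Prime] (k : Type) [Field k] [CharP k p] [PerfectRing k p] (D : Type)
    [CommRing D] [Algebra k D] (φ : Ak k →ₐ[k] D) (res : D →ₐ[k] Lau k) (g : Fin 3 → D)
    (K : Type) [Field K] [Algebra D K] (h1 : S_or p k D φ res g K) (h2 : S_ind p k D φ res g K)
    (h3 : S_chg) (h4 : S_pol) : S_lk p k D φ res g K := by
  intro hBD hfrac
  obtain ⟨O, ρ, hO⟩ := h1 hBD hfrac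
  obtain ⟨hind, -⟩ := h2 hBD hfrac O ρ hO
  have := hBD.dom
  have hinjK : Function.Injective (algebraMap D K) := IsFractionRing.injective D K
  have : CharP D p := charP_of_injective_algebraMap (algebraMap k D).injective p
  have : CharP K p := charP_of_injective_ringHom hinjK p
  have hPt := (h3 p K (xK φ K) (fun i => algebraMap D K (g i))).1 hind
  obtain ⟨ι, hι⟩ : ∃ ι : Ak k →ₐ[k] D, ι = aeval (fun i => φ (X i) + g i ^ p) := ⟨_, rfl⟩
  have hιX : ∀ i, ι (X i) = φ (X i) + g i ^ p := by
    intro i
    rw [hι, aeval_X]
  -- injectivity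
  have key : ∀ (N : ℕ) (a : Ak k), a.totalDegree ≤ N → ι a = 0 → a = 0 := by
    intro N
    induction N with
    | zero =>
      intro a ha h0
      obtain ⟨c, hc⟩ : ∃ c, a = C c := ⟨_, (MvPolynomial.totalDegree_eq_zero_iff_eq_C.1 (Nat.le_zero.1 ha))⟩
      rw [hc] at h0 ⊢
      have : algebraMap k D c = 0 := by
        rw [← h0]
        exact (ι.commutes c).symm
      rw [(map_eq_zero_iff _ (algebraMap k D).injective).1 this, map_zero]
    | succ N ih =>
      intro a ha h0
      have e := (h4 p k).1 a
      have hz : ∀ e : Fin 3 → Fin p, algebraMap D K (ι (compk p k (toF e) a)) = 0 := by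
        refine hPt (fun e => algebraMap D K (ι (compk p k (toF e) a))) ?_
        have h5 : algebraMap D K (ι (pcomb X fun e : Fin 3 → Fin p => compk p k (toF e) a)) = 0 := by
          rw [← e, h0, map_zero]
        rw [← h5]
        simp only [pcomb, F2Ch.monY, map_sum, map_mul, map_pow, map_prod, hιX, map_add, xK]
      have hz' : ∀ e : Fin 3 → Fin p, compk p k (toF e) a = 0 := by
        intro e
        refine ih _ ?_ (hinjK (by rw [hz e, map_zero]))
        have hd := p_lk_deg p k (toF e) a
        have h2p := (Fact.out : p.Prime).two_le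
        nlinarith [hd, h2p]
      rw [e]
      simp only [pcomb, hz']
      refine Finset.sum_eq_zero fun e _ => ?_
      rw [zero_pow (Fact.out : p.Prime).ne_zero, zero_mul]
  have hinj : Function.Injective ((algebraMap D K).comp (ι : Ak k →+* D)) := by
    refine hinjK.comp ?_
    rw [injective_iff_map_eq_zero]
    intro a ha
    exact key _ a le_rfl ha
  have hfin : (ι : Ak k →ₐ[k] D).Finite := by
    rw [hι]
    exact hBD.np.fin
  let algLK : Algebra (FractionRing (Ak k)) K := (IsFractionRing.lift hinj).toAlgebra
  have hcomp : ∀ a : Ak k, algebraMap (FractionRing (Ak k)) K (algebraMap (Ak k) (FractionRing (Ak k)) a) =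
      algebraMap D K (ι a) := by
    intro a
    exact IsFractionRing.lift_algebraMap hinj a
  refine ⟨FractionRing (Ak k), inferInstance, inferInstance, algLK, inferInstance, ?_, ?_⟩
  · let algPD : Algebra (Ak k) D := (ι : Ak k →+* D).toAlgebra
    have hmf : Module.Finite (Ak k) D := hfin
    obtain ⟨s, hs⟩ := hmf.fg_top
    have hint : ∀ d : D, IsIntegral (FractionRing (Ak k)) (algebraMap D K d) := by
      intro d
      obtain ⟨q, hq, hq0⟩ := (Algebra.IsIntegral.isIntegral (R := Ak k) d)
      refine ⟨q.map (algebraMap (Ak k) (FractionRing (Ak k))), hq.map _, ?_⟩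
      rw [Polynomial.eval₂_map]
      have e : (algebraMap (FractionRing (Ak k)) K).comp (algebraMap (Ak k) (FractionRing (Ak k))) =
          (algebraMap D K).comp (algebraMap (Ak k) D) := by
        exact RingHom.ext hcomp
      rw [e, ← Polynomial.hom_eval₂, hq0, map_zero]
    obtain ⟨E, hE⟩ : ∃ E : IntermediateField (FractionRing (Ak k)) K,
        E = IntermediateField.adjoin (FractionRing (Ak k)) ((algebraMap D K) '' (s : Set D)) := ⟨_, rfl⟩
    have : FiniteDimensional (FractionRing (Ak k)) E := by
      rw [hE]
      have : Finite ((algebraMap D K) '' (s : Set D)) := (s.finite_toSet.image _)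
      apply IntermediateField.finiteDimensional_adjoin
      rintro x ⟨d, -, rfl⟩
      exact hint d
    have hDE : ∀ d : D, algebraMap D K d ∈ E := by
      intro d
      have hd : d ∈ Submodule.span (Ak k) (s : Set D) := by
        rw [hs]
        exact Submodule.mem_top
      induction hd using Submodule.span_induction with
      | mem x hx =>
        rw [hE]
        exact IntermediateField.subset_adjoin _ _ ⟨x, hx, rfl⟩
      | zero => rw [map_zero]; exact E.zero_mem
      | add x y _ _ hx hy => rw [map_add]; exact E.add_mem hx hy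
      | smul a x _ hx =>
        have e : a • x = ι a * x := rfl
        rw [e, map_mul, ← hcomp]
        exact E.mul_mem (E.algebraMap_mem _) hx
    have htop : E = ⊤ := by
      rw [eq_top_iff]
      intro x _
      obtain ⟨a, b, hb, rfl⟩ := IsFractionRing.div_surjective (A := D) x
      exact E.div_mem (hDE a) (hDE b)
    have e2 : FiniteDimensional (FractionRing (Ak k)) (⊤ : IntermediateField (FractionRing (Ak k)) K) := by
      rw [← htop]
      infer_instance
    exact Module.Finite.of_surjective
      (IntermediateField.topEquiv : (⊤ : IntermediateField (FractionRing (Ak k)) K) ≃ₐ[_] K).toLinearMap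
      (IntermediateField.topEquiv : (⊤ : IntermediateField (FractionRing (Ak k)) K) ≃ₐ[_] K).surjective
  · constructor
    intro a
    rw [hcomp, hι]

end Pool.Agent.F2
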