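import Pool.Agent.Lib.MP_305fdd_al.F2.StmB

/-! [FB mo]: elements of `O` with `h (ker res) ⊆ Om` lie in `Om`. -/

set_option autoImplicit false

namespace Pool.Agent.F2

open MvPolynomial

private theorem mo_poly {P M : Type} [CommRing P] [CommRing M] [IsDomain M] (j : P →+* M) (s : M)
    (hs : s ≠ 0) : ∀ (n : ℕ) (f : Polynomial P), f.Monic → f.natDegree = n →
      Polynomial.eval₂ j s f = 0 →
      ∃ f' : Polynomial P, Polynomial.eval₂ j s f' = 0 ∧ j (f'.coeff 0) ≠ 0 := by
  intro n
  induction n with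
  | zero =>
    intro f hf hn h0
    have h1 : f = 1 := (Polynomial.Monic.natDegree_eq_zero hf).mp hn
    subst h1
    simp at h0
  | succ n ih =>
    intro f hf hn h0
    by_cases h : j (f.coeff 0) = 0
    · have h2 : Polynomial.eval₂ j s f = Polynomial.eval₂ j s f.divX * s + j (f.coeff 0) := by
        conv_lhs => rw [← Polynomial.divX_mul_X_add f]
        simp
      rw [h0, h, add_zero] at h2
      have h3 : Polynomial.eval₂ j s f.divX = 0 := by
        rcases mul_eq_zero.mp h2.symm with h4 | h4
        · exact h4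
        · exact absurd h4 hs
      have h5 : f.divX.natDegree = n := by
        rw [Polynomial.natDegree_divX_eq_natDegree_tsub_one, hn]
        rfl
      refine ih f.divX ?_ h5 h3
      rw [Polynomial.Monic, Polynomial.leadingCoeff, h5, Polynomial.coeff_divX, ← hn]
      exact hf
    · exact ⟨f, h0, h⟩

theorem p_mo (p : ℕ) [Fact p.Prime] (k : Type) [Field k] [CharP k p] [PerfectRing k p]
    (D : Type) [CommRing D] [Algebra k D] (φ : Ak k →ₐ[k] D) (res : D →ₐ[k] Lau k)
    (g : Fin 3 → D) (K : Type) [Field K] [Algebra D K] (h1 : S_om p k D φ res g K) :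
    S_mo p k D φ res g K := by
  intro hBD hfr O ρ hOR L _ _ _ _ _ hLK h hO hmo
  obtain ⟨hD, hadd, hmul, -⟩ := h1 hBD hfr L hLK
  have := hBD.dom
  set ι : Ak k →ₐ[k] D := aeval (fun i => φ (X i) + g i ^ p) with hι
  have hint : (ι : Ak k →+* D).IsIntegral := RingHom.Finite.to_isIntegral hBD.np.fin
  have hcompat : ∀ a, algebraMap D K (ι a) = algebraMap L K (algebraMap (Ak k) L a) :=
    fun a => (hLK.compat a).symm
  have hκ : res (φ (kap k)) = 0 := by
    have h2 : ρ ⟨algebraMap D K (φ (kap k)), hOR.dmem _⟩ = 0 :=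
      (hOR.ker _).mpr ⟨1, O.one_mem, (mul_one _).symm⟩
    rw [hOR.ρ_D] at h2
    exact (IsFractionRing.injective (Lau k) (Mf k)) (by rw [h2, map_zero])
  -- the key: for every prime `π` there is `a` with `ι a * h ∈ Om` and `π ∤ a`
  have key : ∀ π : Ak k, Prime π → ∃ a : Ak k, ¬ π ∣ a ∧ h * algebraMap D K (ι a) ∈ Om k D K L := by
    intro π hπ
    by_cases hπ0 : res (ι π) = 0
    · obtain ⟨a, b, hb, hab⟩ := (hOR.mem h).mp hO
      obtain ⟨f, hf, hf0⟩ := hint b
      obtain ⟨f', hf'0, hf'1⟩ := mo_poly ((res : D →+* Lau k).comp (ι : Ak k →+* D)) (res b) hb _ f hf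
        rfl (by
          have := congrArg res hf0
          rw [map_zero] at this
          rw [← this]
          exact (Polynomial.hom_eval₂ f (ι : Ak k →+* D) (res : D →+* Lau k) b).symm)
      refine ⟨f'.coeff 0, ?_, ?_⟩
      · rintro ⟨c, hc⟩
        apply hf'1
        change res (ι (f'.coeff 0)) = 0
        rw [hc, map_mul, map_mul, hπ0, zero_mul]
      · have h2 : Polynomial.eval₂ (ι : Ak k →+* D) b f' =
            Polynomial.eval₂ (ι : Ak k →+* D) b f'.divX * b + ι (f'.coeff 0) := by
          conv_lhs => rw [← Polynomial.divX_mul_X_add f']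
          simp
        have h3 : res (Polynomial.eval₂ (ι : Ak k →+* D) b f') = 0 := by
          rw [← hf'0]
          exact Polynomial.hom_eval₂ f' (ι : Ak k →+* D) (res : D →+* Lau k) b
        have h4 := hmo _ h3
        have h5 := hD (Polynomial.eval₂ (ι : Ak k →+* D) b f'.divX * a)
        have h6 := (hadd _ _ h4 ((hadd _ _ h5 h5).2)).1
        convert h6 using 1
        rw [h2, map_add, map_mul, map_mul, mul_add, ← hab]
        ring
    · have hker : (RingHom.ker ((res : D →+* Lau k).comp (ι : Ak k →+* D))).IsPrime :=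
        RingHom.ker_isPrime _
      have hne : RingHom.ker ((res : D →+* Lau k).comp (ι : Ak k →+* D)) ≠ ⊥ := by
        let : Algebra (Ak k) D := (ι : Ak k →+* D).toAlgebra
        have h2 : (RingHom.ker (res : D →+* Lau k)).comap (algebraMap (Ak k) D) ≠ ⊥ :=
          Ideal.comap_ne_bot_of_integral_mem hBD.kne (RingHom.mem_ker.mpr hκ) (hint _)
        rw [← RingHom.comap_ker]
        exact h2
      obtain ⟨π', hπ'mem, hπ'⟩ := hker.exists_mem_prime_of_ne_bot hne
      have hπ'0 : res (ι π') = 0 := hπ'mem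
      refine ⟨π', fun hdvd => hπ0 ?_, hmo _ hπ'0⟩
      have hass : Associated π π' := hπ.associated_of_dvd hπ' hdvd
      obtain ⟨c, hc⟩ := hass.symm.dvd
      rw [hc, map_mul, map_mul, hπ'0, zero_mul]
  intro d
  set τ : L := Algebra.trace L K (h * algebraMap D K d) with hτ
  have hq : IsUnit ((IsFractionRing.den (Ak k) τ : Ak k)) := by
    by_contra hnu
    obtain ⟨π, hπ, hπq⟩ := WfDvdMonoid.exists_irreducible_factor hnu
      (nonZeroDivisors.ne_zero (IsFractionRing.den (Ak k) τ).2)
    have hπp : Prime π := UniqueFactorizationMonoid.irreducible_iff_prime.mp hπ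
    obtain ⟨a, ha, hah⟩ := key π hπp
    obtain ⟨b, hb⟩ := hah d
    have h2 : algebraMap (Ak k) L a * τ = algebraMap (Ak k) L b := by
      rw [← hb, hτ, ← smul_eq_mul, ← map_smul, Algebra.smul_def, ← hcompat]
      congr 1
      ring
    have h3 : τ * algebraMap (Ak k) L (IsFractionRing.den (Ak k) τ : Ak k) =
        algebraMap (Ak k) L (IsFractionRing.num (Ak k) τ) :=
      IsFractionRing.num_mul_den_eq_num_iff_eq.mpr rfl
    have h4 : a * IsFractionRing.num (Ak k) τ = b * (IsFractionRing.den (Ak k) τ : Ak k) := by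
      apply IsFractionRing.injective (Ak k) L
      rw [map_mul, map_mul, ← h2, ← h3]
      ring
    have h5 : π ∣ a * IsFractionRing.num (Ak k) τ := by
      rw [h4]
      exact Dvd.dvd.mul_left hπq b
    rcases hπp.dvd_or_dvd h5 with h6 | h6
    · exact ha h6
    · exact hπp.not_isUnit (IsFractionRing.num_den_reduced (Ak k) τ h6 hπq)
  obtain ⟨a, ha⟩ := IsFractionRing.isInteger_of_isUnit_den hq
  exact ⟨a, ha.symm⟩

end Pool.Agent.F2
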