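import Pool.Agent.Lib.MP_305fdd_al.F2.StmB

set_option autoImplicit false

namespace Pool.Agent.F2

open MvPolynomial

theorem p_nil_charP (p : ℕ) [Fact p.Prime] (k : Type) [Field k] [CharP k p]
    (D : Type) [CommRing D] [Algebra k D] (K : Type) [Field K] [Algebra D K] : CharP K p :=
  charP_of_injective_ringHom ((algebraMap D K).comp (algebraMap k D)).injective p

theorem p_nil (p : ℕ) [Fact p.Prime] (k : Type) [Field k] [CharP k p] [PerfectRing k p] (D : Type)
    [CommRing D] [Algebra k D] (φ : Ak k →ₐ[k] D) (res : D →ₐ[k] Lau k) (g : Fin 3 → D) (K : Type)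
    [Field K] [Algebra D K] (h1 : S_pb p k D φ res g K) (h2 : S_fpl)
    (h3 : S_om p k D φ res g K) (h4 : S_car) : S_nil p k D φ res g K := by
  intro hBD hfr L _ _ _ _ _ hLK
  have : CharP K p := p_nil_charP p k D K
  obtain ⟨hpb, hsep, htr, hden⟩ := h1 hBD hfr L hLK
  obtain ⟨-, hadd, hmul⟩ := (h4 p K (xK φ K)).2 hpb
  obtain ⟨hfpl, hpsi⟩ := h2 p k L
  have hCzero : Car p (xK φ K) 0 = 0 := by
    have := hadd 0 0
    rw [add_zero] at this
    exact left_eq_add.mp this
  have hinj : Function.Injective (algebraMap (Ak k) L) := IsFractionRing.injective (Ak k) L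
  -- the iteration
  have hit : ∀ (N : ℕ) (h : K) (l : D → Ak k),
      (∀ d, Algebra.trace L K (h * algebraMap D K d) = algebraMap (Ak k) L (l d)) →
      ∀ d, Algebra.trace L K ((Car p (xK φ K))^[N] h * algebraMap D K d) =
        algebraMap (Ak k) L ((cartk p k)^[N] l d) := by
    intro N
    induction N with
    | zero => intro h l hl d; exact hl d
    | succ N ih =>
      intro h l hl d
      rw [Function.iterate_succ_apply, Function.iterate_succ_apply]
      refine ih _ _ ?_ d
      intro d
      have e : Car p (xK φ K) h * algebraMap D K d =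
          Car p (xK φ K) (h * algebraMap D K (d ^ p)) := by
        rw [map_pow, mul_comm h, hmul, mul_comm]
      rw [e, htr, hl, hpsi]
      rfl
  intro h hh
  choose l hl using hh
  have hladd : ∀ c d, l (c + d) = l c + l d := by
    intro c d
    apply hinj
    rw [map_add, ← hl, ← hl, ← hl, map_add (algebraMap D K), mul_add, map_add]
  obtain ⟨N, hN⟩ := hBD.np.nil (AddMonoidHom.mk' l hladd) (by
    intro a c
    apply hinj
    change algebraMap (Ak k) L (l _) = algebraMap (Ak k) L (a * l c)
    rw [map_mul, ← hl, ← hl, map_mul (algebraMap D K), ← hLK.compat a, ← smul_eq_mul (algebraMap _ L a),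
      ← map_smul, Algebra.smul_def]
    congr 1
    ring)
  have hz : (Car p (xK φ K))^[N] h = 0 := by
    have h5 : ∀ f : K, Algebra.trace L K ((Car p (xK φ K))^[N] h * f) = 0 := by
      intro f
      obtain ⟨d, a, ha, hfa⟩ := hden f
      have ha' : algebraMap (Ak k) L a ≠ 0 := fun h0 => ha (hinj (by rw [h0, map_zero]))
      have h6 := hit N h l hl d
      have h7 : (cartk p k)^[N] l d = 0 := hN d
      rw [h7, map_zero, ← hfa] at h6
      have h8 : (Car p (xK φ K))^[N] h * (f * algebraMap L K (algebraMap (Ak k) L a)) =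
          algebraMap (Ak k) L a • ((Car p (xK φ K))^[N] h * f) := by
        rw [Algebra.smul_def]; ring
      rw [h8, map_smul, smul_eq_mul] at h6
      exact (mul_eq_zero.mp h6).resolve_left ha'
    have hnd := (traceForm_nondegenerate L K)
    exact hnd.1 _ (fun f => by rw [Algebra.traceForm_apply]; exact h5 f)
  refine ⟨N, fun M hM => ?_⟩
  obtain ⟨m, rfl⟩ := Nat.exists_eq_add_of_le hM
  rw [add_comm, Function.iterate_add_apply, hz]
  exact Function.iterate_fixed hCzero m

end Pool.Agent.F2
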