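import Pool.Agent.Lib.MP_305fdd_al.F2.StmB

set_option autoImplicit false

namespace Pool.Agent.F2

open MvPolynomial

theorem p_om_charP (p : ℕ) [Fact p.Prime] (k : Type) [Field k] [CharP k p]
    (D : Type) [CommRing D] [Algebra k D] (K : Type) [Field K] [Algebra D K] : CharP K p :=
  charP_of_injective_ringHom ((algebraMap D K).comp (algebraMap k D)).injective p

theorem p_om (p : ℕ) [Fact p.Prime] (k : Type) [Field k] [CharP k p] [PerfectRing k p] (D : Type)
    [CommRing D] [Algebra k D] (φ : Ak k →ₐ[k] D) (res : D →ₐ[k] Lau k) (g : Fin 3 → D) (K : Type)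
    [Field K] [Algebra D K] (h1 : S_pb p k D φ res g K) (h2 : S_fpl) (h3 : S_car) :
    S_om p k D φ res g K := by
  intro hBD hfr L _ _ _ _ _ hLK
  have : CharP K p := p_om_charP p k D K
  obtain ⟨hpb, hsep, htr, hden⟩ := h1 hBD hfr L hLK
  obtain ⟨-, hadd, hmul⟩ := (h3 p K (xK φ K)).2 hpb
  obtain ⟨hfpl, hpsi⟩ := h2 p k L
  refine ⟨?_, ?_, ?_, ?_⟩
  · intro d d'
    let _ : Algebra (Ak k) K := ((algebraMap L K).comp (algebraMap (Ak k) L)).toAlgebra
    have : IsScalarTower (Ak k) L K := IsScalarTower.of_algebraMap_eq (fun _ => rfl)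
    rw [← map_mul]
    have hint : IsIntegral (Ak k) (algebraMap D K (d * d')) := by
      have hfin : (aeval (fun i => φ (X i) + g i ^ p) : Ak k →ₐ[k] D).Finite := hBD.np.fin
      obtain ⟨q, hq1, hq2⟩ := (RingHom.Finite.to_isIntegral hfin) (d * d')
      refine ⟨q, hq1, ?_⟩
      have e : algebraMap (Ak k) K = (algebraMap D K).comp
          ((aeval (fun i => φ (X i) + g i ^ p) : Ak k →ₐ[k] D) : Ak k →+* D) := by
        exact RingHom.ext fun a => hLK.compat a
      rw [e, ← Polynomial.hom_eval₂]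
      have : Polynomial.eval₂ ((aeval (fun i => φ (X i) + g i ^ p) : Ak k →ₐ[k] D) : Ak k →+* D)
          (d * d') q = 0 := hq2
      rw [this, map_zero]
    have h4 := Algebra.isIntegral_trace (R := Ak k) (L := L) hint
    obtain ⟨a, ha⟩ := IsIntegrallyClosed.isIntegral_iff.mp h4
    exact ⟨a, ha.symm⟩
  · intro h h' hh hh'
    constructor
    · intro d
      obtain ⟨a, ha⟩ := hh d
      obtain ⟨a', ha'⟩ := hh' d
      refine ⟨a + a', ?_⟩
      rw [add_mul, map_add, ha, ha', map_add]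
    · intro d
      obtain ⟨a, ha⟩ := hh d
      refine ⟨-a, ?_⟩
      rw [neg_mul, map_neg, ha, map_neg]
  · intro d h hh d'
    obtain ⟨a, ha⟩ := hh (d * d')
    refine ⟨a, ?_⟩
    rw [← ha, map_mul (algebraMap D K) d d']
    congr 1
    ring
  · intro h hh d
    obtain ⟨a, ha⟩ := hh (d ^ p)
    refine ⟨psik p k a, ?_⟩
    have e : Car p (xK φ K) h * algebraMap D K d =
        Car p (xK φ K) (h * algebraMap D K (d ^ p)) := by
      rw [map_pow, mul_comm h, hmul, mul_comm]
    rw [e, htr, ha, hpsi]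

end Pool.Agent.F2
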