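import Pool.Agent.Lib.MP_305fdd_al.F2.StmB

/-!
# MP_305fdd_al (`F_2`), section B: [FB pb]
-/

set_option autoImplicit false

namespace Pool.Agent.F2

open MvPolynomial

theorem p_pb (p : ℕ) [Fact p.Prime] (k : Type) [Field k] [CharP k p] [PerfectRing k p]
    (D : Type) [CommRing D] [Algebra k D] (φ : Ak k →ₐ[k] D) (res : D →ₐ[k] Lau k)
    (g : Fin 3 → D) (K : Type) [Field K] [Algebra D K] (h1 : S_or p k D φ res g K)
    (h2 : S_ind p k D φ res g K) (h3 : S_chg) (h4 : S_fpl) (h5 : S_fld) (h6 : S_car) :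
    S_pb p k D φ res g K := by
  intro hBD hfr L _ _ _ _ _ hLK
  obtain ⟨O, ρ, hO⟩ := h1 hBD hfr
  obtain ⟨hind, -⟩ := h2 hBD hfr O ρ hO
  haveI : IsDomain D := hBD.dom
  haveI : CharP K p :=
    charP_of_injective_ringHom ((algebraMap D K).comp (algebraMap k D)).injective p
  haveI : CharP L p :=
    charP_of_injective_ringHom ((algebraMap (Ak k) L).comp (algebraMap k (Ak k))).injective p
  have ht : (fun i => algebraMap L K (algebraMap (Ak k) L (X i))) =
      fun i => xK φ K i + (algebraMap D K (g i)) ^ p := by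
    funext i
    rw [hLK.compat, aeval_X, map_add, map_pow]
    rfl
  have hi := (h3 p K (xK φ K) (fun i => algebraMap D K (g i))).1 hind
  rw [← ht] at hi
  obtain ⟨hb, hs, htr⟩ := h5 p L K (fun i => algebraMap (Ak k) L (X i)) (h4 p k L).1 hi
  rw [ht] at hb
  have hc := (h3 p K (xK φ K) (fun i => algebraMap D K (g i))).2 hb
  refine ⟨hc.1, hs, ?_, ?_⟩
  · intro h
    have e := htr h
    rw [ht, hc.2 h] at e
    exact e
  · intro f
    obtain ⟨n, b, hb0, hf⟩ := IsFractionRing.div_surjective (A := D) f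
    let ι : Ak k →ₐ[k] D := aeval (fun i => φ (X i) + g i ^ p)
    letI : Algebra (Ak k) D := ι.toRingHom.toAlgebra
    have hfin : Module.Finite (Ak k) D := hBD.np.fin
    haveI : Algebra.IsIntegral (Ak k) D := Algebra.IsIntegral.of_finite _ _
    obtain ⟨a, ha, c, hac⟩ := (Algebra.IsIntegral.isIntegral (R := Ak k) b).isAlgebraic.exists_nonzero_dvd hb0
    refine ⟨n * c, a, ha, ?_⟩
    have hbK : algebraMap D K b ≠ 0 := by
      intro h0
      exact nonZeroDivisors.ne_zero hb0 ((IsFractionRing.injective D K) (by rw [h0, map_zero]))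
    rw [hLK.compat]
    change f * algebraMap D K (algebraMap (Ak k) D a) = _
    rw [hac, map_mul, map_mul, ← hf]
    field_simp

end Pool.Agent.F2
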