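import Pool.Agent.Lib.MP_305fdd_al.F2.FB.ind

/-!
# MP_305fdd_al (`F_2`), section B, piece `rc`: the residual map of the Cartier operator
-/

set_option autoImplicit false

namespace Pool.Agent.F2

open MvPolynomial
open scoped commutatorElement

theorem p_rc (p : ℕ) [Fact p.Prime] (k : Type) [Field k] [CharP k p] [PerfectRing k p] (D : Type)
    [CommRing D] [Algebra k D] (φ : Ak k →ₐ[k] D) (res : D →ₐ[k] Lau k) (g : Fin 3 → D)
    (K : Type) [Field K] [Algebra D K] (h1 : S_ind p k D φ res g K) (h2 : S_pol) (h3 : S_star)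
    (h4 : S_th) (h5 : S_car) : S_rc p k D φ res g K := by
  intro hB hFr O ρ hO hPB
  have := p_ind_charP p k D K
  have hκ := p_ind_kap_ne (K := K) hB
  have hinj := IsFractionRing.injective (Lau k) (Mf k)
  obtain ⟨hind1, hind2⟩ := h1 hB hFr O ρ hO
  obtain ⟨hc1, hc2⟩ := h5 p K (xK φ K)
  obtain ⟨-, hcar⟩ := hc1 hind1
  obtain ⟨hrep, hadd, hmul⟩ := hc2 hPB
  obtain ⟨hp1, hp2, hp3⟩ := h2 p k
  obtain ⟨ht1, ht2, ht3, ht4⟩ := h4 p k
  have hCO : ∀ f ∈ O, Car p (xK φ K) f ∈ O := by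
    intro f hf
    exact hind2 (cof p (xK φ K) f) (by rw [hrep]; exact hf) (top3 p)
  have hCφ : ∀ a : Ak k, Car p (xK φ K) (algebraMap D K (φ a)) =
      algebraMap D K (φ (psik p k a)) := by
    intro a
    conv_lhs => rw [hp1 a]
    rw [p_ind_pcomb_map, (hcar _).2]
    congr 2
  -- elements of `D`
  have hD : ∀ d : D, ∃ w' : O,
      (w' : K) = Car p (xK φ K) (algebraMap D K d * algebraMap D K (φ (kap k)) ^ (p - 1)) ∧
      ρ w' = algebraMap (Lau k) (Mf k) (th p k (res d)) := by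
    intro d
    obtain ⟨a, ha⟩ := hB.rng d
    have hi : res (d - φ a) = 0 := by rw [map_sub, hB.res_φ, ha, sub_self]
    obtain ⟨f, hf, hf'⟩ := (p_ind_res (K := K) hO _).2 hi
    have hd : algebraMap D K d = algebraMap D K (φ a) + algebraMap D K (φ (kap k)) * f := by
      rw [← hf', map_sub]; ring
    have hpp : algebraMap D K (φ (kap k)) ^ p =
        algebraMap D K (φ (kap k)) * algebraMap D K (φ (kap k)) ^ (p - 1) := by
      rw [← pow_succ', Nat.sub_add_cancel (Fact.out : p.Prime).one_le]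
    have e1 : algebraMap D K d * algebraMap D K (φ (kap k)) ^ (p - 1) =
        algebraMap D K (φ (a * kap k ^ (p - 1))) + algebraMap D K (φ (kap k)) ^ p * f := by
      rw [hd, hpp, map_mul, map_mul, map_pow, map_pow]; ring
    have e2 : Car p (xK φ K) (algebraMap D K d * algebraMap D K (φ (kap k)) ^ (p - 1)) =
        algebraMap D K (φ (psik p k (a * kap k ^ (p - 1)))) +
          algebraMap D K (φ (kap k)) * Car p (xK φ K) f := by
      rw [e1, hadd, hCφ, hmul]
    have hm : algebraMap D K (φ (kap k)) * Car p (xK φ K) f ∈ O :=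
      mul_mem (hO.dmem _) (hCO f hf)
    refine ⟨⟨algebraMap D K (φ (psik p k (a * kap k ^ (p - 1)))), hO.dmem _⟩ + ⟨_, hm⟩, ?_, ?_⟩
    · rw [e2]; rfl
    · rw [map_add, hO.ρ_D, hB.res_φ, h3 p hB.odd k a, ← ha]
      have : ρ ⟨_, hm⟩ = 0 := (hO.ker _).2 ⟨_, hCO f hf, rfl⟩
      rw [this, add_zero]
  refine ⟨hCO, fun d w hw => ?_⟩
  obtain ⟨w1, w2, hw2, hw12⟩ := (hO.mem (w : K)).1 w.2
  have hw2' := p_ind_b_ne (K := K) hO hw2
  have hres : res w1 = res w2 := by
    apply hinj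
    rw [← hO.ρ_D, ← hO.ρ_D]
    have : (⟨algebraMap D K w1, hO.dmem w1⟩ : O) = w * ⟨algebraMap D K w2, hO.dmem w2⟩ :=
      Subtype.ext hw12.symm
    rw [this, map_mul, hw, one_mul]
  obtain ⟨v, hv, hv'⟩ := hD (d * w1 * w2 ^ (p - 1))
  have hinv := p_ind_inv (K := K) hO hw2
  refine ⟨⟨_, hinv⟩ * v, ?_, ?_⟩
  · have hpp : algebraMap D K w2 ^ (p - 1) = (algebraMap D K w2)⁻¹ * algebraMap D K w2 ^ p := by
      rw [← pow_sub_one_mul (Fact.out : p.Prime).ne_zero (algebraMap D K w2)]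
      field_simp
    have e3 : algebraMap D K d * w * algebraMap D K (φ (kap k)) ^ (p - 1) =
        (algebraMap D K w2)⁻¹ ^ p *
          (algebraMap D K (d * w1 * w2 ^ (p - 1)) * algebraMap D K (φ (kap k)) ^ (p - 1)) := by
      rw [map_mul, map_mul, map_pow, hpp, ← hw12]
      have : (algebraMap D K w2)⁻¹ ^ p * algebraMap D K w2 ^ p = 1 := by
        rw [← mul_pow, inv_mul_cancel₀ hw2', one_pow]
      have h6 : (algebraMap D K w2)⁻¹ * algebraMap D K w2 = 1 := inv_mul_cancel₀ hw2'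
      calc algebraMap D K d * w * algebraMap D K (φ (kap k)) ^ (p - 1)
          = algebraMap D K d * w * algebraMap D K (φ (kap k)) ^ (p - 1) *
            (((algebraMap D K w2)⁻¹ ^ p * algebraMap D K w2 ^ p) *
              ((algebraMap D K w2)⁻¹ * algebraMap D K w2)) := by rw [this, h6]; ring
        _ = _ := by ring
    rw [e3, hmul, ← hv]
    rfl
  · have h7 : ρ ⟨(algebraMap D K w2)⁻¹, hinv⟩ * algebraMap (Lau k) (Mf k) (res w2) = 1 := by
      rw [← hO.ρ_D, ← map_mul, ← map_one ρ]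
      congr 1
      exact Subtype.ext (inv_mul_cancel₀ hw2')
    rw [map_mul, hv']
    have h8 : res (d * w1 * w2 ^ (p - 1)) = res w2 ^ p * res d := by
      rw [map_mul, map_mul, map_pow, hres, ← pow_sub_one_mul (Fact.out : p.Prime).ne_zero (res w2)]
      ring
    rw [h8, ht1, map_mul, ← mul_assoc, h7, one_mul]

end Pool.Agent.F2
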