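import Pool.Agent.Lib.MP_305fdd_al.F2.StmB

set_option autoImplicit false

namespace Pool.Agent.F2

open MvPolynomial

section

variable (k : Type) [Field k]

/-- the coefficients of `(u + u⁻¹) ^ i * (u - u⁻¹)` -/
private def p_star_ph : ℕ → ℤ → k
  | 0, n => (if n = 1 then 1 else 0) - (if n = -1 then 1 else 0)
  | i + 1, n => p_star_ph i (n - 1) + p_star_ph i (n + 1)

private theorem p_star_anti (i : ℕ) (n : ℤ) : p_star_ph k i (-n) = - p_star_ph k i n := by
  induction i generalizing n with
  | zero =>
    simp only [p_star_ph]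
    have h1 : (-n = 1) ↔ (n = -1) := by omega
    have h2 : (-n = -1) ↔ (n = 1) := by omega
    simp only [h1, h2]
    ring
  | succ i ih =>
    simp only [p_star_ph]
    have h1 : -n - 1 = -(n + 1) := by ring
    have h2 : -n + 1 = -(n - 1) := by ring
    rw [h1, h2, ih, ih]
    ring

private theorem p_star_supp (i : ℕ) (n : ℤ) (h : (i : ℤ) + 1 < n) : p_star_ph k i n = 0 := by
  induction i generalizing n with
  | zero =>
    simp only [p_star_ph]
    rw [if_neg (by push_cast at h; omega), if_neg (by push_cast at h; omega), sub_zero]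
  | succ i ih =>
    simp only [p_star_ph]
    rw [ih _ (by push_cast at h; omega), ih _ (by push_cast at h; omega), add_zero]

private theorem p_star_top (i : ℕ) : p_star_ph k i ((i : ℤ) + 1) = 1 := by
  induction i with
  | zero => simp [p_star_ph]
  | succ i ih =>
    simp only [p_star_ph]
    have h1 : ((i + 1 : ℕ) : ℤ) + 1 - 1 = (i : ℤ) + 1 := by push_cast; ring
    rw [h1, ih, p_star_supp k i _ (by push_cast; omega), add_zero]

private theorem p_star_phP (p : ℕ) [hp : Fact p.Prime] [CharP k p] (hp2 : p ≠ 2) (i : ℕ)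
    (hi : i < p) (n : ℤ) :
    p_star_ph k i ((p : ℤ) * n) = if i = p - 1 then p_star_ph k 0 n else 0 := by
  have hp1 : 2 < p := lt_of_le_of_ne hp.out.two_le (Ne.symm hp2)
  have h2 : (2 : k) ≠ 0 := by
    have := (CharP.cast_eq_zero_iff k p 2).not.2 (fun h => by
      have := Nat.le_of_dvd (by norm_num) h
      omega)
    exact_mod_cast this
  have hzero : ∀ i, p_star_ph k i 0 = 0 := by
    intro i
    have h := p_star_anti k i 0
    rw [neg_zero] at h
    have h' : (2 : k) * p_star_ph k i 0 = 0 := by linear_combination h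
    exact (mul_eq_zero.1 h').resolve_left h2
  -- positive multiples
  have hpos : ∀ n : ℤ, 0 < n → p_star_ph k i ((p : ℤ) * n) =
      if i = p - 1 then p_star_ph k 0 n else 0 := by
    intro n hn
    by_cases hn1 : n = 1
    · subst hn1
      rw [mul_one]
      split_ifs with h
      · have h3 : (p : ℤ) = (i : ℤ) + 1 := by omega
        rw [h3, p_star_top]
        simp [p_star_ph]
      · rw [p_star_supp k i _ (by omega)]
    · have h3 : (p : ℤ) * 2 ≤ (p : ℤ) * n := mul_le_mul_of_nonneg_left (by omega) (by omega)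
      rw [p_star_supp k i _ (by omega), p_star_supp k 0 n (by push_cast; omega)]
      simp
  rcases lt_trichotomy n 0 with hn | hn | hn
  · have h := hpos (-n) (by omega)
    rw [mul_neg, p_star_anti, p_star_anti] at h
    have h' := congrArg Neg.neg h
    rw [neg_neg] at h'
    rw [h']
    split_ifs
    · rw [neg_neg]
    · rw [neg_zero]
  · subst hn
    rw [mul_zero, hzero, hzero]
    simp
  · exact hpos n hn

/-- `u - u⁻¹` -/
private noncomputable def p_star_dx : Lau k :=
  AddMonoidAlgebra.single (1, 0) 1 - AddMonoidAlgebra.single (-1, 0) 1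

/-- `v - v⁻¹` -/
private noncomputable def p_star_dy : Lau k :=
  AddMonoidAlgebra.single (0, 1) 1 - AddMonoidAlgebra.single (0, -1) 1

variable {k} in
private theorem p_star_shift (F : Lau k) (m c : ℤ × ℤ) :
    (AddMonoidAlgebra.single m 1 * F).coeff c = F.coeff (c - m) := by
  rw [AddMonoidAlgebra.coeff_single_mul_eq_mul_coeff (c - m) (fun m' _ => by
    rw [eq_sub_iff_add_eq, add_comm]), one_mul]

private theorem p_star_coeff0 (c : ℤ × ℤ) :
    (p_star_dx k * p_star_dy k).coeff c = p_star_ph k 0 c.1 * p_star_ph k 0 c.2 := by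
  obtain ⟨a, b⟩ := c
  rw [p_star_dx, sub_mul, AddMonoidAlgebra.coeff_sub, Finsupp.sub_apply, p_star_shift,
    p_star_shift, p_star_dy]
  simp only [AddMonoidAlgebra.coeff_sub, Finsupp.sub_apply, AddMonoidAlgebra.coeff_single, Finsupp.single_apply,
    Prod.mk_sub_mk, Prod.mk.injEq, p_star_ph]
  have e1 : (0 : ℤ) = a - 1 ↔ a = 1 := by omega
  have e2 : (0 : ℤ) = a - -1 ↔ a = -1 := by omega
  have e3 : (1 : ℤ) = b - 0 ↔ b = 1 := by omega
  have e4 : (-1 : ℤ) = b - 0 ↔ b = -1 := by omega
  simp only [e1, e2, e3, e4]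
  by_cases h1 : a = 1 <;> by_cases h2 : a = -1 <;> by_cases h3 : b = 1 <;>
    by_cases h4 : b = -1 <;> simp [h1, h2, h3, h4]

private theorem p_star_coeff (i j : ℕ) (c : ℤ × ℤ) :
    (ee k (1, 0) ^ i * (ee k (0, 1) ^ j * (p_star_dx k * p_star_dy k))).coeff c =
      p_star_ph k i c.1 * p_star_ph k j c.2 := by
  induction i generalizing c with
  | zero =>
    rw [pow_zero, one_mul]
    induction j generalizing c with
    | zero => rw [pow_zero, one_mul, p_star_coeff0]
    | succ j ih =>
      rw [pow_succ', mul_assoc, ee, add_mul, AddMonoidAlgebra.coeff_add, Finsupp.add_apply,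
        p_star_shift, p_star_shift]
      have hee : AddMonoidAlgebra.single ((0, 1) : ℤ × ℤ) (1 : k) +
        AddMonoidAlgebra.single (-(0, 1)) 1 = ee k (0, 1) := rfl
      rw [hee, ih, ih]
      obtain ⟨a, b⟩ := c
      simp only [Prod.neg_mk, Prod.mk_sub_mk, neg_zero, sub_zero, sub_neg_eq_add,
        p_star_ph.eq_2]
      ring
  | succ i ih =>
    rw [pow_succ', mul_assoc, ee, add_mul, AddMonoidAlgebra.coeff_add, Finsupp.add_apply,
        p_star_shift, p_star_shift]
    have hee : AddMonoidAlgebra.single ((1, 0) : ℤ × ℤ) (1 : k) +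
        AddMonoidAlgebra.single (-(1, 0)) 1 = ee k (1, 0) := rfl
    rw [hee, ih, ih]
    obtain ⟨a, b⟩ := c
    simp only [Prod.neg_mk, Prod.mk_sub_mk, neg_zero, sub_zero, sub_neg_eq_add,
        p_star_ph.eq_2]
    ring


/-- the map `A → Lau[s]` -/
private noncomputable def p_star_j : Ak k →ₐ[k] Polynomial (Lau k) :=
  aeval ![Polynomial.C (ee k (1, 0)), Polynomial.C (ee k (0, 1)),
    Polynomial.X + Polynomial.C (ee k (1, 1))]

private theorem p_star_j_zero (a : Ak k) : (p_star_j k a).coeff 0 = resA k a := by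
  have h : ((Polynomial.aeval (0 : Lau k) : Polynomial (Lau k) →ₐ[Lau k] Lau k).restrictScalars
      k).comp (p_star_j k) = resA k := by
    apply MvPolynomial.algHom_ext
    intro i
    fin_cases i <;> simp [p_star_j, resA]
  rw [Polynomial.coeff_zero_eq_aeval_zero, ← h]
  rfl

private theorem p_star_j_kap : p_star_j k (kap k) =
    Polynomial.X * (Polynomial.X + Polynomial.C (p_star_dx k * p_star_dy k)) := by
  have hu : (AddMonoidAlgebra.single (1, 0) 1 * AddMonoidAlgebra.single (-1, 0) 1 : Lau k) = 1 := by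
    rw [AddMonoidAlgebra.single_mul_single, AddMonoidAlgebra.one_def]
    norm_num
    rfl
  have hv : (AddMonoidAlgebra.single (0, 1) 1 * AddMonoidAlgebra.single (0, -1) 1 : Lau k) = 1 := by
    rw [AddMonoidAlgebra.single_mul_single, AddMonoidAlgebra.one_def]
    norm_num
    rfl
  have e1 : ee k (1, 0) = AddMonoidAlgebra.single (1, 0) 1 + AddMonoidAlgebra.single (-1, 0) 1 := by
    simp [ee]
  have e2 : ee k (0, 1) = AddMonoidAlgebra.single (0, 1) 1 + AddMonoidAlgebra.single (0, -1) 1 := by
    simp [ee]
  have e3 : ee k (1, 1) = AddMonoidAlgebra.single (1, 0) 1 * AddMonoidAlgebra.single (0, 1) 1 +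
      AddMonoidAlgebra.single (-1, 0) 1 * AddMonoidAlgebra.single (0, -1) 1 := by
    simp [ee, AddMonoidAlgebra.single_mul_single]
  have hu' := congrArg (Polynomial.C (R := Lau k)) hu
  have hv' := congrArg (Polynomial.C (R := Lau k)) hv
  rw [Polynomial.C_mul, Polynomial.C_1] at hu' hv'
  have h4 : p_star_j k 4 = 4 := map_ofNat _ 4
  simp only [kap, map_sub, map_add, map_mul, map_pow, h4]
  simp only [p_star_j, aeval_X, Matrix.cons_val_zero, Matrix.cons_val_one, Matrix.cons_val,
    p_star_dx, p_star_dy, e1, e2, e3, Polynomial.C_mul, Polynomial.C_add, Polynomial.C_sub]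
  linear_combination (2 - Polynomial.C (AddMonoidAlgebra.single (0, 1) 1 : Lau k) ^ 2 -
    Polynomial.C (AddMonoidAlgebra.single (0, -1) 1 : Lau k) ^ 2) * hu' +
    (2 - Polynomial.C (AddMonoidAlgebra.single (1, 0) 1 : Lau k) ^ 2 -
    Polynomial.C (AddMonoidAlgebra.single (-1, 0) 1 : Lau k) ^ 2) * hv'

end

section

variable (p : ℕ) [hp : Fact p.Prime] (k : Type) [Field k] [CharP k p] [PerfectRing k p]

omit [PerfectRing k p] in
/-- the coefficient of `s ^ (p - 1)` is `p`-linear with respect to the constant coefficient -/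
private theorem p_star_coeff_pow (b f : Polynomial (Lau k)) :
    (b ^ p * f).coeff (p - 1) = b.coeff 0 ^ p * f.coeff (p - 1) := by
  have hp0 : 0 < p := hp.out.pos
  have : CharP (Lau k) p := charP_of_injective_algebraMap (algebraMap k (Lau k)).injective p
  have h1 : b ^ p = Polynomial.C (b.coeff 0 ^ p) + Polynomial.X ^ p * b.divX ^ p := by
    conv_lhs => rw [← Polynomial.divX_mul_X_add b]
    rw [add_pow_char, mul_pow, Polynomial.C_pow]
    ring
  rw [h1, add_mul, Polynomial.coeff_add, Polynomial.coeff_C_mul, mul_assoc,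
    Polynomial.coeff_X_pow_mul', if_neg (by omega), add_zero]

/-- right hand side -/
private noncomputable def p_star_R (a : Ak k) : Lau k :=
  th p k ((Polynomial.C (p_star_dx k * p_star_dy k) * p_star_j k a).coeff (p - 1))

private theorem p_star_R_add (a b : Ak k) :
    p_star_R p k (a + b) = p_star_R p k a + p_star_R p k b := by
  rw [p_star_R, map_add, mul_add, Polynomial.coeff_add, map_add]
  rfl

private theorem p_star_R_pow (hth : S_th) (b a : Ak k) :
    p_star_R p k (b ^ p * a) = resA k b * p_star_R p k a := by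
  rw [p_star_R, map_mul (p_star_j k), map_pow (p_star_j k), mul_left_comm, p_star_coeff_pow,
    (hth p k).1, p_star_j_zero]
  rfl

private theorem p_star_psik_pow (hpol : S_pol) (b a : Ak k) :
    psik p k (b ^ p * a) = b * psik p k a := by
  obtain ⟨h1, h2, h3⟩ := hpol p k
  have h4 : ∀ c : (Fin 3 → Fin p) → Ak k, b ^ p * pcomb X c = pcomb X fun e => b * c e := by
    intro c
    simp only [pcomb, Finset.mul_sum, mul_pow, mul_assoc]
  rw [h1 a, h4, h3, h3]

private theorem p_star_th_mon (hp2 : p ≠ 2) (i j : ℕ) (hi : i < p) (hj : j < p) :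
    th p k (ee k (1, 0) ^ i * (ee k (0, 1) ^ j * (p_star_dx k * p_star_dy k))) =
      if i = p - 1 ∧ j = p - 1 then p_star_dx k * p_star_dy k else 0 := by
  ext c
  rw [coeff_th, p_star_coeff]
  simp only [Prod.smul_fst, Prod.smul_snd, smul_eq_mul]
  rw [p_star_phP k p hp2 i hi, p_star_phP k p hp2 j hj]
  by_cases h1 : i = p - 1
  · by_cases h2 : j = p - 1
    · rw [if_pos h1, if_pos h2, if_pos ⟨h1, h2⟩, p_star_coeff0]
      -- the values are `0, 1, -1`
      have hrt : ∀ n m : ℤ, rt p k (p_star_ph k 0 n * p_star_ph k 0 m) =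
          p_star_ph k 0 n * p_star_ph k 0 m := by
        intro n m
        have : ∀ x y : k, rt p k (x * y) = rt p k x * rt p k y := fun x y =>
          map_mul ((frobeniusEquiv k p).symm) x y
        have h1 : rt p k 1 = 1 := map_one ((frobeniusEquiv k p).symm)
        have h3 : ∀ n : ℤ, rt p k (p_star_ph k 0 n) = p_star_ph k 0 n := by
          intro n
          simp only [p_star_ph]
          rw [map_sub]
          split_ifs <;> simp [h1]
        rw [this, h3, h3]
      rw [hrt]
    · rw [if_neg h2, mul_zero, if_neg (fun h => h2 h.2), map_zero]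
      rfl
  · rw [if_neg h1, zero_mul, if_neg (fun h => h1 h.1), map_zero]
    rfl

theorem p_star (h1 : S_pol) (h2 : S_th) : S_star := by
  intro p _ hp2 k _ _ _ a
  set δ : Lau k := p_star_dx k * p_star_dy k with hδ
  have hp0 : 0 < p := (Fact.out : p.Prime).pos
  -- the claim
  have claim : ∀ a : Ak k, δ * resA k (psik p k a) = p_star_R p k a := by
    intro a
    have hL : ∀ b a : Ak k, δ * resA k (psik p k (b ^ p * a)) =
        resA k b * (δ * resA k (psik p k a)) := by
      intro b a
      rw [p_star_psik_pow p k h1, map_mul]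
      ring
    have hmon : ∀ e : Fin 3 → Fin p, δ * resA k (psik p k (F2Ch.monY X e)) =
        p_star_R p k (F2Ch.monY X e) := by
      intro e
      have hpsi : psik p k (F2Ch.monY X e) = if e = top3 p then 1 else 0 := by
        classical
        have : (F2Ch.monY X e : Ak k) = pcomb X fun e' => if e = e' then 1 else 0 := by
          rw [pcomb, Finset.sum_eq_single e]
          · simp
          · intro b _ hb
            rw [if_neg (Ne.symm hb), zero_pow hp0.ne', zero_mul]
          · intro h
            exact absurd (Finset.mem_univ _) h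
        rw [this, (h1 p k).2.2]
      have hR : p_star_R p k (F2Ch.monY X e) =
          if e 2 = (p : ℕ) - 1 then th p k (ee k (1, 0) ^ (e 0 : ℕ) *
            (ee k (0, 1) ^ (e 1 : ℕ) * δ)) else 0 := by
        have hj : p_star_j k (F2Ch.monY X e) = Polynomial.C (ee k (1, 0) ^ (e 0 : ℕ) *
            ee k (0, 1) ^ (e 1 : ℕ)) *
            (Polynomial.X + Polynomial.C (ee k (1, 1))) ^ (e 2 : ℕ) := by
          simp only [F2Ch.monY, Fin.prod_univ_three, map_mul, map_pow]
          simp [p_star_j]
        rw [p_star_R, hj, ← mul_assoc, ← Polynomial.C_mul, Polynomial.coeff_C_mul,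
          Polynomial.coeff_X_add_C_pow]
        by_cases he : (e 2 : ℕ) = p - 1
        · rw [if_pos he, he, Nat.sub_self, pow_zero, Nat.choose_self, Nat.cast_one, mul_one,
            mul_one]
          congr 1
          rw [hδ]
          ring
        · have h3 := (e 2).2
          rw [if_neg he, Nat.choose_eq_zero_of_lt (by omega), Nat.cast_zero, mul_zero, mul_zero,
            map_zero]
      rw [hR, hpsi]
      by_cases he2 : (e 2 : ℕ) = p - 1
      · rw [if_pos he2, p_star_th_mon p k hp2 _ _ (e 0).2 (e 1).2]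
        by_cases he : (e 0 : ℕ) = p - 1 ∧ (e 1 : ℕ) = p - 1
        · have : e = top3 p := by
            funext i
            apply Fin.ext
            fin_cases i
            · exact he.1
            · exact he.2
            · exact he2
          rw [if_pos he, if_pos this, map_one, mul_one]
        · have : e ≠ top3 p := by
            rintro rfl
            exact he ⟨rfl, rfl⟩
          rw [if_neg he, if_neg this, map_zero, mul_zero]
      · have : e ≠ top3 p := by
          rintro rfl
          exact he2 rfl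
        rw [if_neg he2, if_neg this, map_zero, mul_zero]
    rw [(h1 p k).1 a, pcomb]
    have hsumL : δ * resA k (psik p k (∑ e : Fin 3 → Fin p,
        compk p k (toF e) a ^ p * F2Ch.monY X e)) =
        ∑ e : Fin 3 → Fin p, δ * resA k (psik p k (compk p k (toF e) a ^ p * F2Ch.monY X e)) := by
      rw [map_sum, map_sum, Finset.mul_sum]
    have hsumR : p_star_R p k (∑ e : Fin 3 → Fin p,
        compk p k (toF e) a ^ p * F2Ch.monY X e) =
        ∑ e : Fin 3 → Fin p, p_star_R p k (compk p k (toF e) a ^ p * F2Ch.monY X e) :=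
      map_sum (AddMonoidHom.mk' (p_star_R p k) (p_star_R_add p k)) _ _
    rw [hsumL, hsumR]
    refine Finset.sum_congr rfl fun e _ => ?_
    rw [hL, hmon, p_star_R_pow p k h2]
  have hδ0 : δ ≠ 0 := by
    intro h
    have := p_star_coeff0 k (1, 1)
    rw [← hδ, h] at this
    simp [p_star_ph] at this
  have h3 := claim (a * kap k ^ (p - 1))
  have h4 : p_star_R p k (a * kap k ^ (p - 1)) = δ * th p k (resA k a) := by
    rw [p_star_R, map_mul (p_star_j k), map_pow (p_star_j k), p_star_j_kap, ← hδ, mul_pow]
    have : Polynomial.C δ * (p_star_j k a * (Polynomial.X ^ (p - 1) *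
        (Polynomial.X + Polynomial.C δ) ^ (p - 1))) = Polynomial.X ^ (p - 1) *
        (Polynomial.C δ * (p_star_j k a * (Polynomial.X + Polynomial.C δ) ^ (p - 1))) := by ring
    rw [this, Polynomial.coeff_X_pow_mul', if_pos le_rfl, Nat.sub_self, Polynomial.coeff_C_mul,
      Polynomial.mul_coeff_zero, p_star_j_zero]
    have h5 : ((Polynomial.X + Polynomial.C δ) ^ (p - 1)).coeff 0 = δ ^ (p - 1) := by
      rw [Polynomial.coeff_zero_eq_eval_zero]
      simp
    rw [h5]
    have h6 : δ * (resA k a * δ ^ (p - 1)) = δ ^ p * resA k a := by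
      obtain ⟨q, hq⟩ : ∃ q, p = q + 1 := ⟨p - 1, by omega⟩
      rw [hq, Nat.add_sub_cancel]
      ring
    rw [h6, (h2 p k).1]
  rw [h4] at h3
  exact mul_left_cancel₀ hδ0 h3

end

end Pool.Agent.F2
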