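import Pool.Agent.Lib.MP_305fdd_al.F2.StmB

/-!
# MP_305fdd_al (`F_2`), section B, piece [FB th]: properties of `th`.
-/

set_option autoImplicit false

namespace Pool.Agent.F2

open MvPolynomial

noncomputable section

section

variable (p : ℕ) [hp : Fact p.Prime] (k : Type) [Field k] [CharP k p] [PerfectRing k p]

theorem p_th_rt_mul (x y : k) : rt p k (x ^ p * y) = x * rt p k y := by
  change (frobeniusEquiv k p).symm (x ^ p * y) = x * (frobeniusEquiv k p).symm y
  rw [map_mul]
  congr 1
  rw [RingEquiv.symm_apply_eq]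
  rfl

theorem p_th_rt_one : rt p k 1 = 1 := by
  change (frobeniusEquiv k p).symm 1 = 1
  exact map_one _

theorem p_th_charP : CharP (Lau k) p :=
  charP_of_injective_algebraMap (FaithfulSMul.algebraMap_injective k (Lau k)) p

theorem p_th_single (c : ℤ × ℤ) (x : k) (a : Lau k) :
    th p k ((AddMonoidAlgebra.single c x : Lau k) ^ p * a) = AddMonoidAlgebra.single c x * th p k a := by
  refine AddMonoidAlgebra.coeff_injective (Finsupp.ext fun m => ?_)
  rw [coeff_th, AddMonoidAlgebra.single_pow, AddMonoidAlgebra.coeff_single_mul_apply,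
    AddMonoidAlgebra.coeff_single_mul_apply, coeff_th, p_th_rt_mul]
  congr 4
  simp only [smul_add, smul_neg, natCast_zsmul]

theorem p_th_mul (s a : Lau k) : th p k (s ^ p * a) = s * th p k a := by
  haveI := p_th_charP p k
  induction s using AddMonoidAlgebra.induction_linear with
  | zero => rw [zero_pow hp.out.ne_zero, zero_mul, zero_mul, map_zero]
  | add f g hf hg =>
    rw [add_pow_char, add_mul, map_add, hf, hg, add_mul]
  | single c x => exact p_th_single p k c x a

theorem p_th_iter (a : Lau k) (n : ℕ) : ∀ c : ℤ × ℤ, ((th p k)^[n] a).coeff c =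
    (rt p k)^[n] (a.coeff (((p : ℤ) ^ n) • c)) := by
  induction n with
  | zero => intro c; simp
  | succ n ih =>
    intro c
    rw [Function.iterate_succ_apply', Function.iterate_succ_apply', coeff_th, ih]
    rw [smul_smul, pow_succ]

theorem p_th_rt_zero (n : ℕ) : (rt p k)^[n] 0 = 0 := by
  induction n with
  | zero => rfl
  | succ n ih => rw [Function.iterate_succ_apply', ih, map_zero]

theorem p_th_fin (a : Lau k) : ∃ N₀ : ℕ, ∀ N ≥ N₀, ∀ c : ℤ × ℤ, c ≠ 0 →
    a.coeff (((p : ℤ) ^ N) • c) = 0 := by
  refine ⟨a.coeff.support.sum (fun c => c.1.natAbs + c.2.natAbs) , fun N hN c hc => ?_⟩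
  by_contra h
  have hmem : ((p : ℤ) ^ N) • c ∈ a.coeff.support := by
    rw [Finsupp.mem_support_iff]; exact h
  have h1 := Finset.single_le_sum (f := fun c : ℤ × ℤ => c.1.natAbs + c.2.natAbs)
    (fun _ _ => Nat.zero_le _) hmem
  simp only [Prod.smul_fst, Prod.smul_snd, smul_eq_mul, Int.natAbs_mul, Int.natAbs_pow,
    Int.natAbs_natCast] at h1
  have h2 : 1 ≤ c.1.natAbs + c.2.natAbs := by
    by_contra h3
    apply hc
    ext
    · simp only [Prod.fst_zero]; omega
    · simp only [Prod.snd_zero]; omega
  have h3 : p ^ N ≤ p ^ N * c.1.natAbs + p ^ N * c.2.natAbs := by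
    rw [← mul_add]; exact Nat.le_mul_of_pos_right _ h2
  have h4 : N < p ^ N := Nat.lt_pow_self hp.out.one_lt
  omega

end

theorem p_th : S_th := by
  intro p _ k _ _ _
  refine ⟨fun s a => p_th_mul p k s a, ?_, ?_, ?_⟩
  · refine AddMonoidAlgebra.coeff_injective (Finsupp.ext fun m => ?_)
    rw [coeff_th, AddMonoidAlgebra.one_def, AddMonoidAlgebra.coeff_single]
    by_cases hm : m = 0
    · subst hm
      rw [smul_zero, Finsupp.single_eq_same, p_th_rt_one]
    · have h1 : (p : ℤ) • m ≠ 0 := by
        intro h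
        apply hm
        apply smul_inj p
        simp only [h, smul_zero]
      rw [Finsupp.single_eq_of_ne h1, Finsupp.single_eq_of_ne hm, map_zero]
  · intro a
    simp only [ct, coeff_th, smul_zero]
  · intro a
    obtain ⟨N₀, hN₀⟩ := p_th_fin p k a
    refine ⟨N₀, fun N hN => ?_⟩
    refine AddMonoidAlgebra.coeff_injective (Finsupp.ext fun c => ?_)
    rw [p_th_iter, AddMonoidAlgebra.coe_algebraMap, Function.comp_apply,
      AddMonoidAlgebra.coeff_single]
    by_cases hc : c = 0
    · subst hc
      rw [smul_zero, Finsupp.single_eq_same]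
      rfl
    · rw [hN₀ N hN c hc, Finsupp.single_eq_of_ne hc, p_th_rt_zero]

end

end Pool.Agent.F2
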