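import Pool.Agent.Lib.MP_305fdd_al.F2.StmB

/-!
# MP_305fdd_al (`F_2`), section B, piece `ind`: `p`-independence along the reducible locus
-/

set_option autoImplicit false
set_option linter.unusedSectionVars false

namespace Pool.Agent.F2

open MvPolynomial
open scoped commutatorElement

section
variable {p : ℕ} [Fact p.Prime] {k : Type} [Field k] [CharP k p] [PerfectRing k p]
  {D : Type} [CommRing D] [Algebra k D] {φ : Ak k →ₐ[k] D} {res : D →ₐ[k] Lau k} {g : Fin 3 → D}
  {K : Type} [Field K] [Algebra D K]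

/-- the characteristic of `K` -/
theorem p_ind_charP (p : ℕ) [Fact p.Prime] (k D K : Type) [Field k] [CharP k p] [CommRing D]
    [Algebra k D] [Field K] [Algebra D K] : CharP K p :=
  charP_of_injective_ringHom ((algebraMap D K).comp (algebraMap k D)).injective p

/-- `κ ≠ 0` in `K` -/
theorem p_ind_kap_ne (hB : BD p k D φ res g) [IsFractionRing D K] :
    algebraMap D K (φ (kap k)) ≠ 0 := by
  intro h
  have := hB.dom
  exact hB.kne ((map_eq_zero_iff _ (IsFractionRing.injective D K)).1 h)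

theorem p_ind_res {O : ValuationSubring K} {ρ : O →+* Mf k} (hO : OR φ res K O ρ) (d : D) :
    (∃ y ∈ O, algebraMap D K d = algebraMap D K (φ (kap k)) * y) ↔ res d = 0 := by
  have h1 := hO.ker ⟨algebraMap D K d, hO.dmem d⟩
  rw [hO.ρ_D] at h1
  rw [← h1]
  exact map_eq_zero_iff _ (IsFractionRing.injective (Lau k) (Mf k))

/-- divisibility by powers of `κ` can be tested in `O` -/
theorem p_ind_A (hB : BD p k D φ res g) [IsFractionRing D K] {O : ValuationSubring K}
    {ρ : O →+* Mf k} (hO : OR φ res K O ρ) (hk : S_kera) (n : ℕ) : ∀ (a : Ak k) (y : K), y ∈ O →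
    algebraMap D K (φ a) = algebraMap D K (φ (kap k)) ^ n * y → kap k ^ n ∣ a := by
  induction n with
  | zero => intro a y _ _; simp
  | succ n ih =>
    intro a y hy h
    have hκ := p_ind_kap_ne (K := K) hB
    have h1 : res (φ a) = 0 := by
      rw [← p_ind_res (K := K) hO]
      refine ⟨algebraMap D K (φ (kap k)) ^ n * y, ?_, ?_⟩
      · exact O.mul_mem _ _ (pow_mem (hO.dmem _) _) hy
      · rw [h]; ring
    rw [hB.res_φ, hk] at h1
    obtain ⟨a', rfl⟩ := h1
    rw [map_mul, map_mul, pow_succ', mul_assoc] at h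
    have h2 := mul_left_cancel₀ hκ h
    rw [pow_succ']
    exact mul_dvd_mul_left _ (ih a' y hy h2)

/-- `b⁻¹ ∈ O` if `res b ≠ 0` -/
theorem p_ind_inv {O : ValuationSubring K} {ρ : O →+* Mf k} (hO : OR φ res K O ρ) {b : D}
    (hb : res b ≠ 0) : (algebraMap D K b)⁻¹ ∈ O := by
  have hb0 : algebraMap D K b ≠ 0 := by
    intro h
    apply hb
    rw [← p_ind_res (K := K) hO]
    exact ⟨0, O.zero_mem, by rw [h, mul_zero]⟩
  rw [hO.mem]
  exact ⟨1, b, hb, by rw [inv_mul_cancel₀ hb0, map_one]⟩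

theorem p_ind_b_ne {O : ValuationSubring K} {ρ : O →+* Mf k} (hO : OR φ res K O ρ) {b : D}
    (hb : res b ≠ 0) : algebraMap D K b ≠ 0 := by
  intro h
  apply hb
  rw [← p_ind_res (K := K) hO]
  exact ⟨0, O.zero_mem, by rw [h, mul_zero]⟩

/-- monomials are in `O` -/
theorem p_ind_mon {O : ValuationSubring K} {ρ : O →+* Mf k} (hO : OR φ res K O ρ)
    (e : Fin 3 → Fin p) : F2Ch.monY (xK φ K) e ∈ O := by
  unfold F2Ch.monY
  exact prod_mem fun i _ => pow_mem (hO.dmem _) _

theorem p_ind_pcomb_smul (x : Fin 3 → K) (a : K) (c : (Fin 3 → Fin p) → K) :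
    pcomb x (fun e => a * c e) = a ^ p * pcomb x c := by
  unfold pcomb
  rw [Finset.mul_sum]
  refine Finset.sum_congr rfl fun e _ => ?_
  rw [mul_pow]; ring

theorem p_ind_pcomb_map (c : (Fin 3 → Fin p) → Ak k) :
    algebraMap D K (φ (pcomb X c)) = pcomb (xK φ K) fun e => algebraMap D K (φ (c e)) := by
  unfold pcomb F2Ch.monY xK
  simp only [map_sum, map_mul, map_pow, map_prod]

/-- step (1) -/
theorem p_ind_one (hB : BD p k D φ res g) [IsFractionRing D K] {O : ValuationSubring K}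
    {ρ : O →+* Mf k} (hO : OR φ res K O ρ) (hp : S_pol) (hk : S_kera)
    (c : (Fin 3 → Fin p) → K) (hc : ∀ e, c e ∈ O) (y : K) (hy : y ∈ O)
    (h : pcomb (xK φ K) c = algebraMap D K (φ (kap k)) ^ p * y) :
    ∀ e, ∃ z ∈ O, c e = algebraMap D K (φ (kap k)) * z := by
  classical
  have := p_ind_charP p k D K
  have hκ := p_ind_kap_ne (K := K) hB
  set κ := algebraMap D K (φ (kap k)) with hκdef
  have h0 : ∀ e, ∃ a b : D, res b ≠ 0 ∧ c e * algebraMap D K b = algebraMap D K a :=
    fun e => (hO.mem (c e)).1 (hc e)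
  choose a b hb hab using h0
  set B : D := ∏ e, b e with hB'
  have hBres : res B ≠ 0 := by
    rw [hB', map_prod]
    exact Finset.prod_ne_zero_iff.2 fun e _ => hb e
  have hd : ∀ e, c e * algebraMap D K B =
      algebraMap D K (a e * ∏ e' ∈ Finset.univ.erase e, b e') := by
    intro e
    rw [hB', ← Finset.mul_prod_erase Finset.univ b (Finset.mem_univ e), map_mul, ← mul_assoc, hab,
      map_mul]
  set d : (Fin 3 → Fin p) → D := fun e => a e * ∏ e' ∈ Finset.univ.erase e, b e' with hddef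
  have hrng : ∀ e, ∃ α : Ak k, res (d e) = resA k α := fun e => hB.rng (d e)
  choose α hα using hrng
  have hi : ∀ e, res (d e - φ (α e)) = 0 := by
    intro e
    rw [map_sub, hB.res_φ, hα, sub_self]
  have hf : ∀ e, ∃ f ∈ O, algebraMap D K (d e - φ (α e)) = κ * f := fun e =>
    (p_ind_res (K := K) hO _).2 (hi e)
  choose f hfO hf' using hf
  have hde : ∀ e, algebraMap D K (d e) = algebraMap D K (φ (α e)) + κ * f e := by
    intro e
    rw [← hf', map_sub]; ring
  have e1 : pcomb (xK φ K) (fun e => algebraMap D K (d e)) =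
      algebraMap D K B ^ p * (κ ^ p * y) := by
    rw [← h, ← p_ind_pcomb_smul]
    congr 1
    funext e
    rw [← hd e, mul_comm]
  have e2 : pcomb (xK φ K) (fun e => algebraMap D K (d e)) =
      algebraMap D K (φ (pcomb X α)) + κ ^ p * pcomb (xK φ K) f := by
    rw [p_ind_pcomb_map, ← p_ind_pcomb_smul]
    unfold pcomb
    rw [← Finset.sum_add_distrib]
    refine Finset.sum_congr rfl fun e _ => ?_
    show algebraMap D K (d e) ^ p * _ = algebraMap D K (φ (α e)) ^ p * _ + (κ * f e) ^ p * _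
    rw [hde, add_pow_char]
    ring
  have hfm : pcomb (xK φ K) f ∈ O := by
    unfold pcomb
    exact sum_mem fun e _ => mul_mem (pow_mem (hfO e) _) (p_ind_mon hO e)
  have e3 : algebraMap D K (φ (pcomb X α)) =
      κ ^ p * (algebraMap D K B ^ p * y - pcomb (xK φ K) f) := by
    have := e2.symm.trans e1
    linear_combination this
  have hdvd : kap k ^ p ∣ pcomb X α :=
    p_ind_A (K := K) hB hO hk p _ _ (sub_mem (mul_mem (pow_mem (hO.dmem _) _) hy) hfm) e3
  obtain ⟨q, hq⟩ := hdvd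
  obtain ⟨hp1, hp2, -⟩ := hp p k
  have e4 : pcomb X α = pcomb X fun e : Fin 3 → Fin p => kap k * compk p k (toF e) q := by
    rw [hq]
    conv_lhs => rw [hp1 q]
    unfold pcomb
    rw [Finset.mul_sum]
    refine Finset.sum_congr rfl fun e _ => ?_
    ring
  have e5 := hp2 _ _ e4
  intro e
  have e6 : α e = kap k * compk p k (toF e) q := congrFun e5 e
  have hB0 := p_ind_b_ne (K := K) hO hBres
  refine ⟨(algebraMap D K (φ (compk p k (toF e) q)) + f e) * (algebraMap D K B)⁻¹,
    mul_mem (add_mem (hO.dmem _) (hfO e)) (p_ind_inv hO hBres), ?_⟩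
  have e7 : c e * algebraMap D K B = κ * (algebraMap D K (φ (compk p k (toF e) q)) + f e) := by
    rw [hd e]
    show algebraMap D K (d e) = _
    rw [hde, e6, map_mul, map_mul]
    ring
  rw [← mul_assoc, ← e7, mul_assoc, mul_inv_cancel₀ hB0, mul_one]

/-- step (2) -/
theorem p_ind_two (hB : BD p k D φ res g) [IsFractionRing D K] {O : ValuationSubring K}
    {ρ : O →+* Mf k} (hO : OR φ res K O ρ) (hp : S_pol) (hk : S_kera) (n : ℕ) :
    ∀ (c : (Fin 3 → Fin p) → K), (∀ e, algebraMap D K (φ (kap k)) ^ n * c e ∈ O) →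
    pcomb (xK φ K) c ∈ O → ∀ e, c e ∈ O := by
  have hκ := p_ind_kap_ne (K := K) hB
  induction n with
  | zero =>
    intro c h _ e
    have := h e
    rwa [pow_zero, one_mul] at this
  | succ n ih =>
    intro c h hc
    refine ih c (fun e => ?_) hc
    have h1 : pcomb (xK φ K) (fun e => algebraMap D K (φ (kap k)) ^ (n + 1) * c e) =
        algebraMap D K (φ (kap k)) ^ p *
          (algebraMap D K (φ (kap k)) ^ (n * p) * pcomb (xK φ K) c) := by
      rw [p_ind_pcomb_smul, ← pow_mul]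
      ring
    obtain ⟨z, hz, hz'⟩ := p_ind_one hB hO hp hk _ h _
      (mul_mem (pow_mem (hO.dmem _) _) hc) h1 e
    have h2 : algebraMap D K (φ (kap k)) ^ n * c e = z := by
      apply mul_left_cancel₀ hκ
      rw [← hz', pow_succ']
      ring
    rw [h2]
    exact hz

/-- every family becomes integral after multiplication by a power of `κ` -/
theorem p_ind_pow {O : ValuationSubring K} {ρ : O →+* Mf k} (hO : OR φ res K O ρ)
    (hκ : algebraMap D K (φ (kap k)) ≠ 0) (f : K) :
    ∃ n : ℕ, ∀ m : ℕ, n ≤ m → algebraMap D K (φ (kap k)) ^ m * f ∈ O := by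
  by_cases hf : f = 0
  · exact ⟨0, fun m _ => by rw [hf, mul_zero]; exact O.zero_mem⟩
  · obtain ⟨n, u, -, hu⟩ := hO.unif f hf
    refine ⟨(-n).toNat, fun m hm => ?_⟩
    have h1 : -n ≤ (m : ℤ) := by
      have := Int.self_le_toNat (-n)
      omega
    obtain ⟨j, hj⟩ : ∃ j : ℕ, (m : ℤ) + n = j := ⟨((m : ℤ) + n).toNat, by omega⟩
    have h2 : algebraMap D K (φ (kap k)) ^ m * f = algebraMap D K (φ (kap k)) ^ j * u := by
      rw [hu, ← mul_assoc, ← zpow_natCast, ← zpow_add₀ hκ, hj, zpow_natCast]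
    rw [h2]
    exact mul_mem (pow_mem (hO.dmem _) _) u.2

end

theorem p_ind (p : ℕ) [Fact p.Prime] (k : Type) [Field k] [CharP k p] [PerfectRing k p] (D : Type)
    [CommRing D] [Algebra k D] (φ : Ak k →ₐ[k] D) (res : D →ₐ[k] Lau k) (g : Fin 3 → D)
    (K : Type) [Field K] [Algebra D K] (h1 : S_pol) (h2 : S_kera) : S_ind p k D φ res g K := by
  classical
  intro hB hFr O ρ hO
  have hκ := p_ind_kap_ne (K := K) hB
  have hall : ∀ c : (Fin 3 → Fin p) → K, pcomb (xK φ K) c ∈ O → ∀ e, c e ∈ O := by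
    intro c hc
    have h3 : ∀ e, ∃ n : ℕ, ∀ m : ℕ, n ≤ m → algebraMap D K (φ (kap k)) ^ m * c e ∈ O :=
      fun e => p_ind_pow hO hκ (c e)
    choose N hN using h3
    refine p_ind_two hB hO h1 h2 (∑ e, N e) c (fun e => hN e _ ?_) hc
    exact Finset.single_le_sum (fun _ _ => Nat.zero_le _) (Finset.mem_univ e)
  refine ⟨fun c hc e => ?_, hall⟩
  by_contra hce
  obtain ⟨n, u, hu, hu'⟩ := hO.unif (c e) hce
  obtain ⟨m, hm⟩ : ∃ m : ℕ, n + 1 ≤ (m : ℤ) := ⟨(n + 1).toNat, Int.self_le_toNat _⟩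
  have h4 : pcomb (xK φ K) (fun e => ((algebraMap D K (φ (kap k))) ^ m)⁻¹ * c e) ∈ O := by
    rw [p_ind_pcomb_smul, hc, mul_zero]
    exact O.zero_mem
  have h5 := hall _ h4 e
  rw [hu'] at h5
  obtain ⟨j, hj⟩ : ∃ j : ℕ, (m : ℤ) - n = j + 1 := ⟨((m : ℤ) - n - 1).toNat, by omega⟩
  apply hu
  rw [hO.ker]
  refine ⟨algebraMap D K (φ (kap k)) ^ j * (((algebraMap D K (φ (kap k))) ^ m)⁻¹ *
    (algebraMap D K (φ (kap k)) ^ n * u)), mul_mem (pow_mem (hO.dmem _) _) h5, ?_⟩
  have h6 : algebraMap D K (φ (kap k)) * algebraMap D K (φ (kap k)) ^ j *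
      (((algebraMap D K (φ (kap k))) ^ m)⁻¹ * algebraMap D K (φ (kap k)) ^ n) = 1 := by
    rw [← pow_succ', ← zpow_natCast, ← zpow_natCast _ m, ← zpow_neg, ← zpow_add₀ hκ,
      ← zpow_add₀ hκ]
    have : ((j + 1 : ℕ) : ℤ) + (-(m : ℤ) + n) = 0 := by
      push_cast
      omega
    rw [this, zpow_zero]
  calc (u : K) = 1 * u := (one_mul _).symm
    _ = _ := by rw [← h6]; ring

end Pool.Agent.F2
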